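import Pool.Agent.helper48.PR.SpecC

set_option autoImplicit false
set_option linter.unusedSectionVars false

namespace Pool.Agent.PR

open Matrix

section

variable {A : Type} [Ring A] [Module ℚ A]

/-- Everything commuting with `X` commutes with `N`. -/
def C2_BC (X N : A) : Prop := ∀ Y : A, Commute Y X → Commute Y N

theorem C2_BC_self (X : A) : C2_BC X X := fun _ h => h
theorem C2_BC_one (X : A) : C2_BC X 1 := fun Y _ => Commute.one_right Y
theorem C2_BC_zero (X : A) : C2_BC X 0 := fun Y _ => Commute.zero_right Y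
theorem C2_BC_mul {X N M : A} (h : C2_BC X N) (h' : C2_BC X M) : C2_BC X (N * M) :=
  fun Y hY => (h Y hY).mul_right (h' Y hY)
theorem C2_BC_add {X N M : A} (h : C2_BC X N) (h' : C2_BC X M) : C2_BC X (N + M) :=
  fun Y hY => (h Y hY).add_right (h' Y hY)
theorem C2_BC_neg {X N : A} (h : C2_BC X N) : C2_BC X (-N) :=
  fun Y hY => (h Y hY).neg_right
theorem C2_BC_sub {X N M : A} (h : C2_BC X N) (h' : C2_BC X M) : C2_BC X (N - M) :=
  fun Y hY => (h Y hY).sub_right (h' Y hY)
theorem C2_BC_pow {X N : A} (h : C2_BC X N) (k : ℕ) : C2_BC X (N ^ k) :=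
  fun Y hY => (h Y hY).pow_right k
theorem C2_BC_comm {X N M : A} (h : C2_BC X N) (h' : C2_BC X M) : Commute N M :=
  h' N ((h X (Commute.refl X)).symm)

theorem C2_expand (Z : A) (hZ : IsNilpotent Z) :
    ∃ s : A, IsNilpotent.exp Z = 1 + Z + Z ^ 2 * s ∧ ∀ Y : A, Commute Y Z → Commute Y s := by
  obtain ⟨m, hm⟩ := hZ
  have h2 : Z ^ (m + 2) = 0 := pow_eq_zero_of_le (by omega) hm
  refine ⟨∑ i ∈ Finset.range m, (((i + 2).factorial : ℚ))⁻¹ • Z ^ i, ?_, ?_⟩
  · rw [IsNilpotent.exp_eq_sum h2, Finset.sum_range_succ', Finset.sum_range_succ', Finset.mul_sum]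
    have : ∀ i ∈ Finset.range m, ((i + 1 + 1).factorial : ℚ)⁻¹ • Z ^ (i + 1 + 1) =
        Z ^ 2 * ((((i + 2).factorial : ℚ))⁻¹ • Z ^ i) := by
      intro i _
      rw [mul_smul_comm, ← pow_add, show 2 + i = i + 1 + 1 by omega]
    rw [Finset.sum_congr rfl this]
    simp only [zero_add, Nat.factorial_one, Nat.cast_one, inv_one, pow_one, one_smul,
      Nat.factorial_zero, pow_zero]
    abel
  · intro Y hY
    apply Commute.sum_right
    intro i _
    exact (hY.pow_right i).smul_right _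

theorem C2_exp_eq_one {M : A} (hM : IsNilpotent M) (h : IsNilpotent.exp M = 1) : M = 0 := by
  obtain ⟨s, hs, hc⟩ := C2_expand M hM
  have hMs : Commute M s := hc M (Commute.refl M)
  rw [h] at hs
  have h1 : M * (1 + M * s) = 0 := by
    have : M + M ^ 2 * s = 0 := by
      have h3 : (1 : A) + (M + M ^ 2 * s) = 1 + 0 := by
        rw [← add_assoc, ← hs, add_zero]
      exact add_left_cancel h3
    rw [mul_add, mul_one, ← mul_assoc, ← pow_two]
    exact this
  have hu : IsUnit (1 + M * s) := by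
    have hn : IsNilpotent (M * s) := hMs.isNilpotent_mul_right hM
    exact hn.isUnit_one_add
  obtain ⟨u, hu⟩ := hu
  rw [← hu] at h1
  have := congrArg (· * (↑u⁻¹ : A)) h1
  simpa [mul_assoc] using this

theorem C2_step (X : A) (hX : IsNilpotent X) (k : ℕ) :
    ∃ N a c : A, C2_BC X a ∧ C2_BC X c ∧ N = X * a ∧
      IsNilpotent.exp N = 1 + X + X ^ (k + 1) * c := by
  induction k with
  | zero =>
    refine ⟨0, 0, -1, C2_BC_zero X, C2_BC_neg (C2_BC_one X), by simp, ?_⟩
    rw [IsNilpotent.exp_zero]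
    simp
  | succ k ih =>
    obtain ⟨N, a, c, ha, hc, hN, hE⟩ := ih
    set W := X ^ (k + 1) * c with hW
    have hXc : Commute X c := hc X (Commute.refl X)
    have hBW : C2_BC X W := C2_BC_mul (C2_BC_pow (C2_BC_self X) _) hc
    have hBN : C2_BC X N := by rw [hN]; exact C2_BC_mul (C2_BC_self X) ha
    have hnN : IsNilpotent N := by
      rw [hN]; exact (ha X (Commute.refl X)).isNilpotent_mul_right hX
    have hnW : IsNilpotent W :=
      (hXc.pow_left (k + 1)).isNilpotent_mul_right (hX.pow_succ k)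
    obtain ⟨s, hs, hsc⟩ := C2_expand (-W) hnW.neg
    have hBs : C2_BC X s := fun Y hY => hsc Y ((hBW Y hY).neg_right)
    set Q := X ^ k * (c * c) with hQ
    have hBQ : C2_BC X Q := C2_BC_mul (C2_BC_pow (C2_BC_self X) _) (C2_BC_mul hc hc)
    have hW2 : W * W = X ^ (k + 2) * Q := by
      rw [hW, hQ]
      have e1 : c * X ^ (k + 1) = X ^ (k + 1) * c := (hXc.pow_left (k + 1)).symm.eq
      calc X ^ (k + 1) * c * (X ^ (k + 1) * c) = X ^ (k + 1) * (c * X ^ (k + 1)) * c := by
            noncomm_ring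
        _ = X ^ (k + 1) * (X ^ (k + 1) * c) * c := by rw [e1]
        _ = (X ^ (k + 1) * X ^ (k + 1)) * (c * c) := by noncomm_ring
        _ = (X ^ (k + 2) * X ^ k) * (c * c) := by
            rw [← pow_add, ← pow_add]
            congr 2
            omega
        _ = X ^ (k + 2) * (X ^ k * (c * c)) := by rw [mul_assoc]
    set T := 1 + X + W with hT
    have hBT : C2_BC X T :=
      C2_BC_add (C2_BC_add (C2_BC_one X) (C2_BC_self X)) hBW
    have hTX : T * X ^ (k + 2) = X ^ (k + 2) * T :=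
      (C2_BC_comm hBT (C2_BC_pow (C2_BC_self X) (k + 2))).eq
    have hXW : X * W = X ^ (k + 2) * c := by
      rw [hW, ← mul_assoc, ← pow_succ']
    refine ⟨N - W, a - X ^ k * c, -c - Q + T * (Q * s),
      C2_BC_sub ha (C2_BC_mul (C2_BC_pow (C2_BC_self X) _) hc), ?_, ?_, ?_⟩
    · exact C2_BC_add (C2_BC_sub (C2_BC_neg hc) hBQ) (C2_BC_mul hBT (C2_BC_mul hBQ hBs))
    · rw [hN, hW, mul_sub, ← mul_assoc X, ← pow_succ']
    · rw [sub_eq_add_neg, IsNilpotent.exp_add_of_commute
        ((C2_BC_comm hBN hBW).neg_right) hnN hnW.neg, hE, hs]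
      have h1 : T * (1 + -W + (-W) ^ 2 * s) = T - T * W + T * (W * W * s) := by noncomm_ring
      rw [h1]
      have h2 : T * W = W + X * W + W * W := by rw [hT]; noncomm_ring
      rw [h2, hW2, hXW]
      have h3 : T * (X ^ (k + 2) * Q * s) = X ^ (k + 2) * (T * (Q * s)) := by
        rw [mul_assoc, ← mul_assoc, hTX, mul_assoc]
      rw [h3, hT]
      noncomm_ring

theorem C2_exist (X : A) (hX : IsNilpotent X) :
    ∃ N : A, C2_BC X N ∧ IsNilpotent N ∧ IsNilpotent.exp N = 1 + X := by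
  obtain ⟨m, hm⟩ := hX
  obtain ⟨N, a, c, ha, hc, hN, hE⟩ := C2_step X ⟨m, hm⟩ m
  refine ⟨N, ?_, ?_, ?_⟩
  · rw [hN]; exact C2_BC_mul (C2_BC_self X) ha
  · rw [hN]; exact (ha X (Commute.refl X)).isNilpotent_mul_right ⟨m, hm⟩
  · rw [hE, pow_succ, hm, zero_mul, zero_mul, add_zero]

theorem C2_unique {X N L : A} (hL : C2_BC X L) (hL1 : IsNilpotent L)
    (hL2 : IsNilpotent.exp L = 1 + X) (hN1 : IsNilpotent N) (hN2 : IsNilpotent.exp N = 1 + X) :
    N = L := by
  have hNX : Commute N X := by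
    obtain ⟨s, hs, hc⟩ := C2_expand N hN1
    have h1 : X = N + N ^ 2 * s := by
      have : (1 : A) + X = 1 + (N + N ^ 2 * s) := by rw [← hN2, hs, add_assoc]
      exact add_left_cancel this
    rw [h1]
    exact (Commute.refl N).add_right (((Commute.refl N).pow_right 2).mul_right (hc N (Commute.refl N)))
  have hNL : Commute N L := hL N hNX
  have h1 : IsNilpotent.exp (N - L) = 1 := by
    rw [sub_eq_add_neg, IsNilpotent.exp_add_of_commute hNL.neg_right hN1 hL1.neg, hN2, ← hL2]
    exact IsNilpotent.exp_mul_exp_neg_self hL1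
  have h2 : IsNilpotent (N - L) := by
    rw [sub_eq_add_neg]
    exact hNL.neg_right.isNilpotent_add hN1 hL1.neg
  exact sub_eq_zero.mp (C2_exp_eq_one h2 h1)

end

theorem C2 : C2_stmt := by
  intro n F _ _
  classical
  have hex : ∀ U : Matrix (Fin n) (Fin n) F, IsNilpotent (U - 1) →
      ∃ N : Matrix (Fin n) (Fin n) F, C2_BC (U - 1) N ∧ IsNilpotent N ∧
        IsNilpotent.exp N = 1 + (U - 1) := fun U hU => C2_exist (U - 1) hU
  refine ⟨fun U => if h : IsNilpotent (U - 1) then Classical.choose (hex U h) else 0, ?_, ?_⟩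
  · intro U hU
    obtain ⟨h1, h2, h3⟩ := Classical.choose_spec (hex U hU)
    simp only [dif_pos hU]
    refine ⟨h2, ?_, ?_⟩
    · rw [h3]; abel
    · intro X hX
      have : Commute X (U - 1) := by
        have : Commute X U := hX
        exact this.sub_right (Commute.one_right X)
      exact (h1 X this).eq
  · intro N hN
    have hU : IsNilpotent (IsNilpotent.exp N - 1) := IsNilpotent.isNilpotent_exp_sub_one hN
    obtain ⟨h1, h2, h3⟩ := Classical.choose_spec (hex _ hU)
    simp only [dif_pos hU]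
    exact (C2_unique h1 h2 h3 hN (by abel)).symm

end Pool.Agent.PR
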